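import Pool.Agent.W813.NC.Stm

/-!
# A trace through an even and an odd object is zero. helper308, for helper813.
-/

set_option autoImplicit false
set_option linter.unusedSectionVars false

open CategoryTheory Limits MonoidalCategory

namespace Pool.Agent.W308.NC

open Pool.Agent.W492.MT (tpow tr)
open Pool.Agent.W492.KC (swp gins gsym EvenFin OddFin)
open Pool.Agent.W239.KC (rpt)
open Pool.Agent.W813.NC

universe v u

variable {T : Type u} [Category.{v} T] [MonoidalCategory T] [SymmetricCategory T]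

section
variable [RightRigidCategory T]

theorem tr_one_unit : tr (𝟙 (𝟙_ T)) = 𝟙 (𝟙_ T) := by
  have h1 := Pool.Agent.W239.KC.rpt_whisker (𝟙_ T) (𝟙_ T) (𝟙 (𝟙_ T))
  rw [Pool.Agent.W239.KC.rpt_unit] at h1
  have h2 : (𝟙_ T ◁ 𝟙 (𝟙_ T)) ≫ (ρ_ (𝟙_ T)).hom = (𝟙_ T ◁ tr (𝟙 (𝟙_ T))) ≫ (ρ_ (𝟙_ T)).hom :=
    (cancel_epi (ρ_ (𝟙_ T)).inv).1 h1
  have h3 : (𝟙_ T ◁ 𝟙 (𝟙_ T)) = (𝟙_ T ◁ tr (𝟙 (𝟙_ T))) := (cancel_mono (ρ_ (𝟙_ T)).hom).1 h2
  have h4 := congrArg (fun z => (λ_ (𝟙_ T)).inv ≫ z ≫ (λ_ (𝟙_ T)).hom) h3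
  simp only [id_whiskerLeft, Category.assoc, Iso.inv_hom_id, Category.comp_id,
    Iso.inv_hom_id_assoc] at h4
  exact h4.symm

theorem tr_pow {A B : T} (f : A ⟶ B) (g : B ⟶ A) (k : ℕ) :
    tr (X := A) ((show End A from f ≫ g) ^ (k + 1) : End A) =
      tr (X := B) ((show End B from g ≫ f) ^ (k + 1) : End B) := by
  have h1 : ∀ k : ℕ, ((show End A from f ≫ g) ^ (k + 1) : End A) =
      f ≫ ((show End B from g ≫ f) ^ k : End B) ≫ g := by
    intro k
    induction k with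
    | zero =>
      rw [pow_one, pow_zero, End.one_def, Category.id_comp]
    | succ k ih =>
      rw [pow_succ, ih, End.mul_def]
      have h2 : ((show End B from g ≫ f) ^ (k + 1) : End B) =
          (g ≫ f) ≫ ((show End B from g ≫ f) ^ k : End B) := by
        rw [pow_succ, End.mul_def]
      rw [h2]
      simp only [Category.assoc]
  rw [h1 k, Pool.Agent.W239.KC.tr_cyc]
  congr 1
  rw [pow_succ', End.mul_def, Category.assoc]

end

variable [Preadditive T] [MonoidalPreadditive T] [RightRigidCategory T]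

theorem gsym_zero_of_le (ε : ℤ) (X : T) (a : ℕ) (h : gsym ε X a = 0) :
    ∀ n, a ≤ n → gsym ε X n = 0 := by
  intro n hn
  induction n, hn using Nat.le_induction with
  | base => exact h
  | succ n _ ih =>
    have h1 : gsym ε X (n + 1) = (X ◁ gsym ε X n) ≫ gins ε X n := rfl
    rw [h1, ih, MonoidalPreadditive.whiskerLeft_zero, zero_comp]
    rfl

theorem tr_zero (X : T) : tr (0 : X ⟶ X) = 0 := by
  simp only [tr, MonoidalPreadditive.zero_whiskerRight, zero_comp, comp_zero]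

theorem tre (F : Type) [Field F] [CharZero F] [Linear F T] (h1 : S_NWT T) (h2 : S_ALG F) :
    S_TRE T F := by
  intro hsc A B a b hA hB f g
  by_cases h0 : 𝟙 (𝟙_ T) = 0
  · rw [← Category.comp_id (tr (f ≫ g)), h0, comp_zero]
  choose c hc using hsc
  have huniq : ∀ (x : F) (e : 𝟙_ T ⟶ 𝟙_ T), e = x • 𝟙 _ → c e = x := by
    intro x e he
    have h3 : (c e - x) • 𝟙 (𝟙_ T) = 0 := by
      rw [sub_smul, ← hc e, ← he, sub_self]
    rcases smul_eq_zero.1 h3 with h4 | h4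
    · exact sub_eq_zero.1 h4
    · exact absurd h4 h0
  have hc0 : c 0 = 0 := huniq 0 0 (by rw [zero_smul])
  have hadd : ∀ x y, c (x + y) = c x + c y := by
    intro x y
    apply huniq
    rw [add_smul, ← hc x, ← hc y]
  have hmul : ∀ x y, c (x ≫ y) = c x * c y := by
    intro x y
    apply huniq
    conv_lhs => rw [hc x, hc y]
    rw [Linear.smul_comp, Linear.comp_smul, Category.comp_id, smul_smul]
  have hz : ∀ (n : ℤ) x, c (n • x) = (n : F) * c x := by
    intro n x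
    apply huniq
    rw [mul_smul, ← hc x, Int.cast_smul_eq_zsmul]
  have hsum : ∀ (s : Finset ℕ) (x : ℕ → (𝟙_ T ⟶ 𝟙_ T)), c (∑ k ∈ s, x k) = ∑ k ∈ s, c (x k) := by
    intro s x
    exact map_sum (AddMonoidHom.mk' c hadd) x s
  have hone : c (𝟙 _) = 1 := huniq 1 _ (by rw [one_smul])
  let u : End A := f ≫ g
  let u' : End B := g ≫ f
  have ht : ∀ k : ℕ, tr (X := A) (u ^ (k + 1) : End A) = tr (X := B) (u' ^ (k + 1) : End B) :=
    fun k => tr_pow f g k
  let t : ℕ → F := fun k => c (tr (X := A) (u ^ k : End A))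
  let e : ℕ → F := fun n => c (tr (gsym (-1) A n ≫ pwm (u : A ⟶ A) n))
  let h : ℕ → F := fun n => c (tr (gsym 1 B n ≫ pwm (u' : B ⟶ B) n))
  have key := h2 t e h ?_ ?_ ?_ ?_ ?_ ?_
  · have h5 : c (tr (X := A) (u ^ 1 : End A)) = 0 := key
    have h6 := hc (tr (X := A) (u ^ 1 : End A))
    rw [h5, zero_smul, pow_one] at h6
    exact h6
  · show c (tr (𝟙 (𝟙_ T) ≫ 𝟙 (𝟙_ T))) = 1
    rw [Category.comp_id, tr_one_unit, hone]
  · show c (tr (𝟙 (𝟙_ T) ≫ 𝟙 (𝟙_ T))) = 1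
    rw [Category.comp_id, tr_one_unit, hone]
  · intro n
    show c (tr (gsym (-1) A (n + 1) ≫ pwm (u : A ⟶ A) (n + 1))) = _
    rw [h1 A u (-1) (by norm_num) n, hsum]
    refine Finset.sum_congr rfl fun k _ => ?_
    rw [hz, hmul]
    push_cast
    rfl
  · intro n
    show c (tr (gsym 1 B (n + 1) ≫ pwm (u' : B ⟶ B) (n + 1))) = _
    rw [h1 B u' 1 (by norm_num) n, hsum]
    refine Finset.sum_congr rfl fun k _ => ?_
    rw [hz, hmul, ← ht k]
    push_cast
    rw [one_pow, one_mul]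
  · refine ⟨a, fun n hn => ?_⟩
    show c (tr (gsym (-1) A n ≫ pwm (u : A ⟶ A) n)) = 0
    rw [gsym_zero_of_le (-1) A a hA n hn, zero_comp, tr_zero, hc0]
  · refine ⟨b, fun n hn => ?_⟩
    show c (tr (gsym 1 B n ≫ pwm (u' : B ⟶ B) n)) = 0
    rw [gsym_zero_of_le 1 B b hB n hn, zero_comp, tr_zero, hc0]

end Pool.Agent.W308.NC
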